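import Pool.Agent.H360Z.QO.Epi

set_option autoImplicit false

/-! Elementary embeddings between expansions of the base structure. -/

namespace Pool.Agent.H360Z.QO

open Filter Topology Set FirstOrder

/-- the relational language with arities `a` -/
abbrev LL (a : ℕ → ℕ) : FirstOrder.Language :=
  FirstOrder.Language.mk (fun _ => PEmpty.{1}) (fun n => {i : ℕ // a i = n})

/-- the structure coded by `u` -/
abbrev St (a : ℕ → ℕ) (u : ∀ i : ℕ, (Fin (a i) → ℕ) → Bool) : (LL a).Structure ℕ :=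
  @FirstOrder.Language.Structure.mk (LL a) ℕ (fun f _ => PEmpty.elim f)
    (fun r xs => u (Subtype.val r) (xs ∘ Fin.cast (Subtype.property r)) = true)

theorem term_realize {a : ℕ → ℕ} (u v : ∀ i : ℕ, (Fin (a i) → ℕ) → Bool) (π : ℕ → ℕ) {α : Type}
    (t : (LL a).Term α) (w : α → ℕ) :
    @Language.Term.realize _ _ (St a v) _ (π ∘ w) t =
      π (@Language.Term.realize _ _ (St a u) _ w t) := by
  cases t with
  | var k => rfl
  | func f _ => exact PEmpty.elim f

theorem realize_iff {a : ℕ → ℕ} {α : Type} {n : ℕ} (φ : (LL a).BoundedFormula α n) :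
    ∃ N : ℕ, ∀ (u v : ∀ i : ℕ, (Fin (a i) → ℕ) → Bool) (π : ℕ ≃ ℕ),
      (∀ i < N, ∀ t, v i (π ∘ t) = u i t) → ∀ (w : α → ℕ) (xs : Fin n → ℕ),
        @Language.BoundedFormula.Realize _ _ (St a v) _ _ φ (π ∘ w) (π ∘ xs) ↔
          @Language.BoundedFormula.Realize _ _ (St a u) _ _ φ w xs := by
  induction φ with
  | falsum => exact ⟨0, fun _ _ _ _ _ _ => Iff.rfl⟩
  | equal t₁ t₂ =>
    refine ⟨0, fun u v π _ w xs => ?_⟩
    simp only [Language.BoundedFormula.Realize]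
    rw [← Sum.comp_elim, term_realize u v, term_realize u v, π.injective.eq_iff]
  | rel r ts =>
    refine ⟨r.1 + 1, fun u v π h w xs => ?_⟩
    simp only [Language.BoundedFormula.Realize]
    rw [← Sum.comp_elim]
    simp only [term_realize u v]
    have := h r.1 (Nat.lt_succ_self _)
      ((fun i => @Language.Term.realize _ _ (St a u) _ (Sum.elim w xs) (ts i)) ∘ Fin.cast r.2)
    change v r.1 _ = true ↔ u r.1 _ = true
    rw [← this]
    rfl
  | imp f₁ f₂ ih₁ ih₂ =>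
    obtain ⟨N₁, h₁⟩ := ih₁
    obtain ⟨N₂, h₂⟩ := ih₂
    refine ⟨max N₁ N₂, fun u v π h w xs => ?_⟩
    simp only [Language.BoundedFormula.Realize]
    rw [h₁ u v π (fun i hi => h i (lt_max_of_lt_left hi)),
      h₂ u v π (fun i hi => h i (lt_max_of_lt_right hi))]
  | all f ih =>
    obtain ⟨N, hN⟩ := ih
    refine ⟨N, fun u v π h w xs => ?_⟩
    simp only [Language.BoundedFormula.Realize]
    constructor
    · intro h1 b
      rw [← hN u v π h, Fin.comp_snoc]
      exact h1 _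
    · intro h1 b
      obtain ⟨b, rfl⟩ := π.surjective b
      rw [← Fin.comp_snoc, hN u v π h]
      exact h1 _

theorem elem_of_local {a : ℕ → ℕ} (u v : ∀ i : ℕ, (Fin (a i) → ℕ) → Bool) (q : ℕ → ℕ)
    (h : ∀ (N : ℕ) (F : Finset ℕ), ∃ π : ℕ ≃ ℕ, (∀ i < N, ∀ t, v i (π ∘ t) = u i t) ∧
      ∀ n ∈ F, π n = q n) :
    Nonempty (@Language.ElementaryEmbedding (LL a) ℕ ℕ (St a u) (St a v)) := by
  refine ⟨@Language.ElementaryEmbedding.mk (LL a) ℕ ℕ (St a u) (St a v) q ?_⟩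
  intro n φ x
  obtain ⟨N, hN⟩ := realize_iff φ
  obtain ⟨π, h1, h2⟩ := h N (Finset.univ.image x)
  have h3 : q ∘ x = π ∘ x := funext fun i =>
    (h2 _ (Finset.mem_image_of_mem x (Finset.mem_univ i))).symm
  have h4 : ∀ ys zs : Fin 0 → ℕ,
      @Language.BoundedFormula.Realize _ _ (St a v) _ _ φ (π ∘ x) ys ↔
        @Language.BoundedFormula.Realize _ _ (St a u) _ _ φ x zs := by
    intro ys zs
    rw [← hN u v π h1 x zs, Subsingleton.elim ys (π ∘ zs)]
  rw [h3]
  exact h4 _ _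

theorem rel_of_elem {a : ℕ → ℕ} {u v : ∀ i : ℕ, (Fin (a i) → ℕ) → Bool}
    (e : @Language.ElementaryEmbedding (LL a) ℕ ℕ (St a u) (St a v)) :
    ∃ q : ℕ → ℕ, ∀ i t, v i (q ∘ t) = u i t := by
  refine ⟨@Language.ElementaryEmbedding.toFun (LL a) ℕ ℕ (St a u) (St a v) e, fun i t => ?_⟩
  have := @Language.ElementaryEmbedding.map_rel (LL a) ℕ ℕ (St a u) (St a v) e (a i) ⟨i, rfl⟩ t
  exact Bool.eq_iff_iff.mpr this

/-- points of the expanded structure -/
abbrev Ox : Type := Om × Option (Finset ℕ)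

/-- symbols of the expanded structure -/
abbrev Sx : Type := Sy ⊕ Option ℕ

/-- the unary type of a point -/
def Pr : Option (Finset ℕ) → ℕ → Prop
  | none, _ => True
  | some u, j => j ∈ u

theorem Pr_ext {o o' : Option (Finset ℕ)} (h : ∀ j, Pr o j ↔ Pr o' j) : o = o' := by
  have key : ∀ u : Finset ℕ, ¬ ∀ j, j ∈ u := fun u hu => by
    obtain ⟨j, hj⟩ := Infinite.exists_notMem_finset u
    exact hj (hu j)
  rcases o with _ | u <;> rcases o' with _ | u'
  · rfl
  · exact absurd (fun j => (h j).mp trivial) (key u')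
  · exact absurd (fun j => (h j).mpr trivial) (key u)
  · exact congrArg some (Finset.ext h)

/-- the expanded structure -/
def Mx : Sx → Ox → Ox → Prop
  | Sum.inl i, a, b => Mr i a.1 b.1
  | Sum.inr none, a, _ => a.1.1 = []
  | Sum.inr (some j), a, _ => Pr a.2 j

open Classical in
/-- the pull-back of the expanded structure -/
noncomputable def px (s : ℕ ≃ Sx) (h : ℕ → Ox) : ∀ _ : ℕ, (Fin 2 → ℕ) → Bool :=
  fun i t => decide (Mx (s i) (h (t 0)) (h (t 1)))

/-- prescribed fibres -/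
def Fx (a : Om → Prop) (h : ℕ → Ox) : Prop :=
  ∀ ω, (∀ u N, ∃ n, N ≤ n ∧ h n = (ω, some u)) ∧ (a ω → ∀ N, ∃ n, N ≤ n ∧ h n = (ω, none)) ∧
    (¬ a ω → ∀ n, h n ≠ (ω, none))

theorem Fx.surj {a : Om → Prop} {h : ℕ → Ox} (hf : Fx a h) :
    Function.Surjective (fun n => (h n).1) := by
  intro ω
  obtain ⟨n, -, hn⟩ := (hf ω).1 ∅ 0
  exact ⟨n, by simp [hn]⟩

theorem Fx.iff {a : Om → Prop} {h : ℕ → Ox} (hf : Fx a h) (ω : Om) :
    a ω ↔ ∃ n, h n = (ω, none) := by
  constructor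
  · intro hω
    obtain ⟨n, -, hn⟩ := (hf ω).2.1 hω 0
    exact ⟨n, hn⟩
  · rintro ⟨n, hn⟩
    by_contra hω
    exact (hf ω).2.2 hω n hn

theorem freq_comp {β : Type} {h : ℕ → β} {b : β} (hb : ∀ N, ∃ n, N ≤ n ∧ h n = b)
    (σ : Equiv.Perm ℕ) (N : ℕ) : ∃ n, N ≤ n ∧ (h ∘ σ) n = b := by
  have h1 : {n | h n = b}.Infinite := by
    apply infinite_of_forall_exists_gt
    intro N
    obtain ⟨n, hn1, hn2⟩ := hb (N + 1)
    exact ⟨n, hn2, hn1⟩
  have h2 := h1.preimage (f := σ) (by rw [σ.range_eq_univ]; exact subset_univ _)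
  obtain ⟨n, hn1, hn2⟩ := h2.exists_gt N
  exact ⟨n, hn2.le, hn1⟩

theorem Fx.comp {a : Om → Prop} {h : ℕ → Ox} (hf : Fx a h) (σ : Equiv.Perm ℕ) :
    Fx a (h ∘ σ) := fun ω =>
  ⟨fun u => freq_comp ((hf ω).1 u) σ, fun hω => freq_comp ((hf ω).2.1 hω) σ,
    fun hω n => (hf ω).2.2 hω (σ n)⟩

theorem px_eq_iff {s : ℕ ≃ Sx} {h h' : ℕ → Ox} {q : ℕ → ℕ} (i : ℕ) :
    (∀ t, px s h' i (q ∘ t) = px s h i t) ↔
      ∀ a b, Mx (s i) (h' (q a)) (h' (q b)) ↔ Mx (s i) (h a) (h b) := by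
  constructor
  · intro hp a b
    have := hp ![a, b]
    simpa [px] using this
  · intro hp t
    simp only [px, Function.comp, decide_eq_decide]
    exact hp _ _

theorem tree_of_emb {a a' : Om → Prop} {h h' : ℕ → Ox} (hf : Fx a h) (hf' : Fx a' h')
    {q : ℕ → ℕ} (hq : ∀ i m n, Mx i (h' (q m)) (h' (q n)) ↔ Mx i (h m) (h n)) :
    ∃ k : List ℤ → List ℤ, k [] = [] ∧ (∀ c s, ∃ c', k (c :: s) = c' :: k s) ∧
      ∀ t j, a (t, j) → a' (k t, j) := by
  have hsu : ∀ ω, ∃ n, (h n).1 = ω := hf.surj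
  choose r hr using hsu
  let k : List ℤ → List ℤ := fun t => (h' (q (r (t, Sum.inl 0)))).1.1
  have hk : ∀ n, (h' (q n)).1.1 = k (h n).1.1 := by
    intro n
    apply (hq (Sum.inl (Sum.inl false)) _ _).mpr
    change (h n).1.1 = (h (r _)).1.1
    rw [hr]
  refine ⟨k, ?_, ?_, ?_⟩
  · apply (hq (Sum.inr none) _ 0).mpr
    change (h (r _)).1.1 = []
    rw [hr]
  · intro c s
    apply (hq (Sum.inl (Sum.inl true)) _ _).mpr
    refine ⟨c, ?_⟩
    rw [hr, hr]
  · intro t j ht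
    obtain ⟨n, hn⟩ := (hf.iff _).mp ht
    refine (hf'.iff _).mpr ⟨q n, Prod.ext (Prod.ext ?_ ?_) ?_⟩
    · rw [hk, hn]
    · apply (hq (Sum.inl (Sum.inr j)) n n).mpr
      change (h n).1.2 = j
      rw [hn]
    · apply Pr_ext
      intro i
      have := hq (Sum.inr (some i)) n n
      rw [hn] at this
      exact this

theorem IsAut.nil_iff {γ : Om ≃ Om} (hγ : IsAut γ) (ω : Om) : (γ ω).1 = [] ↔ ω.1 = [] := by
  obtain ⟨k, hk1, hk2, hk3⟩ := hγ.struct
  rw [hk1]
  rcases ω with ⟨_ | ⟨c, t⟩, j⟩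
  · simp [hk2]
  · obtain ⟨c', hc'⟩ := hk3 c t
    simp [hc']

theorem elem_of_aut (s : ℕ ≃ Sx) {a a' : Om → Prop} {h h' : ℕ → Ox} (hf : Fx a h) (hf' : Fx a' h')
    {γ : Om ≃ Om} (hγ : IsAut γ) (hm : ∀ ω, a ω → a' (γ ω)) :
    Nonempty (@Language.ElementaryEmbedding (LL fun _ => 2) ℕ ℕ (St (fun _ => 2) (px s h))
      (St (fun _ => 2) (px s h'))) := by
  classical
  obtain ⟨q, hq1, hq2⟩ := extraction_forall_of_frequently
    (P := fun n k => h' k = (γ (h n).1, (h n).2)) (fun n => by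
      rw [frequently_atTop]
      intro N
      rcases ho : (h n).2 with _ | u
      · exact (hf' _).2.1 (hm _ ((hf.iff _).mpr ⟨n, Prod.ext rfl ho⟩)) N
      · exact (hf' _).1 u N)
  apply elem_of_local _ _ q
  intro N F
  obtain ⟨K, hK⟩ : ∃ K : ℕ, ∀ i < N, ∀ j, s i = Sum.inr (some j) → j < K := by
    induction N with
    | zero => exact ⟨0, fun i hi => absurd hi (Nat.not_lt_zero i)⟩
    | succ N ih =>
      obtain ⟨K, hK⟩ := ih
      by_cases h1 : ∃ j, s N = Sum.inr (some j)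
      · obtain ⟨j0, hj0⟩ := h1
        refine ⟨max K (j0 + 1), fun i hi j hj => ?_⟩
        rcases Nat.lt_succ_iff_lt_or_eq.mp hi with h2 | rfl
        · exact lt_max_of_lt_left (hK i h2 j hj)
        · rw [hj0] at hj
          have : j0 = j := by simpa using hj
          exact lt_max_of_lt_right (by omega)
      · refine ⟨K, fun i hi j hj => ?_⟩
        rcases Nat.lt_succ_iff_lt_or_eq.mp hi with h2 | rfl
        · exact hK i h2 j hj
        · exact absurd ⟨j, hj⟩ h1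
  let C : ℕ → ℕ → Prop := fun m n => (h' n).1 = γ (h m).1 ∧ ∀ j < K, Pr (h' n).2 j ↔ Pr (h m).2 j
  have hCq : ∀ m, C m (q m) := fun m => ⟨by rw [hq2], fun j _ => by rw [hq2]⟩
  obtain ⟨g, hg1, hg2⟩ := extraction_forall_of_frequently
    (P := fun n m => C m n ∧ m ∉ F) (fun n => by
      rw [frequently_atTop]
      intro M
      obtain ⟨m, hm1, hm2⟩ := (hf (γ.symm (h' n).1)).1
        ((Finset.range K).filter (fun j => Pr (h' n).2 j)) (max M (F.sup id + 1))
      refine ⟨m, le_of_max_le_left hm1, ⟨by simp [hm2], fun j hj => ?_⟩, fun hF => ?_⟩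
      · rw [hm2]
        simp [Pr, hj]
      · have h1 : m ≤ F.sup id := Finset.le_sup (f := id) hF
        have h2 := le_of_max_le_right hm1
        omega)
  let g' : ℕ → ℕ := fun n => if hn : ∃ m ∈ F, q m = n then hn.choose else g n
  have hg' : Function.Injective g' := by
    intro n n' hnn
    by_cases h1 : ∃ m ∈ F, q m = n <;> by_cases h2 : ∃ m ∈ F, q m = n'
    · simp only [g', dif_pos h1, dif_pos h2] at hnn
      rw [← h1.choose_spec.2, hnn, h2.choose_spec.2]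
    · simp only [g', dif_pos h1, dif_neg h2] at hnn
      exact absurd (hnn ▸ h1.choose_spec.1) (hg2 n').2
    · simp only [g', dif_neg h1, dif_pos h2] at hnn
      exact absurd (hnn ▸ h2.choose_spec.1) (hg2 n).2
    · simp only [g', dif_neg h1, dif_neg h2] at hnn
      exact hg1.injective hnn
  obtain ⟨π, hπ1, hπ2⟩ := Function.Embedding.schroeder_bernstein_of_rel hq1.injective hg'
    (fun m n => C m n ∧ (m ∈ F → n = q m)) (fun m => ⟨hCq m, fun _ => rfl⟩) (fun n => by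
      by_cases h1 : ∃ m ∈ F, q m = n
      · simp only [g', dif_pos h1]
        refine ⟨?_, fun _ => h1.choose_spec.2.symm⟩
        have := hCq h1.choose
        rwa [h1.choose_spec.2] at this
      · simp only [g', dif_neg h1]
        exact ⟨(hg2 n).1, fun hF => absurd hF (hg2 n).2⟩)
  refine ⟨Equiv.ofBijective π hπ1, fun i hi => (px_eq_iff i).mpr fun m n => ?_,
    fun n hn => (hπ2 n).2 hn⟩
  simp only [Equiv.ofBijective_apply]
  rcases hs : s i with i' | _ | j
  · change Mr i' _ _ ↔ Mr i' _ _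
    rw [(hπ2 m).1.1, (hπ2 n).1.1]
    exact hγ _ _ _
  · change (h' (π m)).1.1 = [] ↔ (h m).1.1 = []
    rw [(hπ2 m).1.1]
    exact hγ.nil_iff _
  · exact (hπ2 m).1.2 j (hK i hi j hs)

theorem exists_base' (X : Type) [TopologicalSpace X] [PolishSpace X] [MeasurableSpace X]
    [BorelSpace X] (R : Set (X × X)) (hR : MeasureTheory.AnalyticSet R)
    (hrefl : ∀ x, (x, x) ∈ R) (htr : ∀ x y z, (x, y) ∈ R → (y, z) ∈ R → (x, z) ∈ R) :
    ∃ A : X → Om → Prop, (∀ ω, MeasurableSet {x | A x ω}) ∧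
      (∀ x y, (x, y) ∈ R → ∃ γ : Om ≃ Om, IsAut γ ∧ ∀ ω, A x ω → A y (γ ω)) ∧
      (∀ x y (k : List ℤ → List ℤ), k [] = [] → (∀ c s, ∃ c', k (c :: s) = c' :: k s) →
        (∀ t j, A x (t, j) → A y (k t, j)) → (x, y) ∈ R) ∧
      (∀ x y (γ : Om ≃ Om), IsAut γ → (∀ ω, A x ω ↔ A y (γ ω)) → γ = Equiv.refl _ ∧ x = y) := by
  rcases isEmpty_or_nonempty X with hX | hX
  · exact ⟨fun _ _ => True, fun _ => MeasurableSet.const True, fun x => isEmptyElim x,
      fun x => isEmptyElim x, fun x => isEmptyElim x⟩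
  obtain ⟨e, T, P, he, hinj, hP, hT⟩ := exists_NF_polish X R hR hrefl htr
  refine ⟨fun x => Lb P (e x), fun ω => he (lb_measurable hP ω), ?_, ?_, ?_⟩
  · intro x y hxy
    exact mono_of_T hP ((hT x y).mp hxy)
  · intro x y k hk2 hk3 hm
    exact (hT x y).mpr (T_of_mono hP hk2 hk3 hm)
  · intro x y γ hγ hm
    obtain ⟨h1, h2⟩ := rigid hP hγ hm
    exact ⟨h1, hinj h2⟩

theorem elem_main (X : Type) [TopologicalSpace X] [PolishSpace X] [MeasurableSpace X]
    [BorelSpace X] (R : Set (X × X)) (hR : MeasureTheory.AnalyticSet R)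
    (hrefl : ∀ x, (x, x) ∈ R) (htr : ∀ x y z, (x, y) ∈ R → (y, z) ∈ R → (x, z) ∈ R) :
    ∃ B : Set (∀ _ : ℕ, (Fin 2 → ℕ) → Bool), MeasurableSet B ∧
      (∀ (σ : Equiv.Perm ℕ) (u : ∀ _ : ℕ, (Fin 2 → ℕ) → Bool),
        u ∈ B ↔ (fun i v => u i (σ ∘ v)) ∈ B) ∧
      (∃ f : X → (∀ _ : ℕ, (Fin 2 → ℕ) → Bool), Measurable f ∧ (∀ x, f x ∈ B) ∧
        ∀ x y, (x, y) ∈ R ↔ Nonempty (@Language.ElementaryEmbedding (LL fun _ => 2) ℕ ℕ
          (St (fun _ => 2) (f x)) (St (fun _ => 2) (f y)))) ∧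
      (∃ g : B → X, Measurable g ∧ ∀ u v : B,
          Nonempty (@Language.ElementaryEmbedding (LL fun _ => 2) ℕ ℕ
            (St (fun _ => 2) u.1) (St (fun _ => 2) v.1)) ↔ (g u, g v) ∈ R) := by
  classical
  obtain ⟨A, hA, hA1, hA2, hrig⟩ := exists_base' X R hR hrefl htr
  obtain ⟨s⟩ : Nonempty (ℕ ≃ Sx) := nonempty_equiv_of_countable
  obtain ⟨c⟩ : Nonempty (ℕ ≃ Ox) := nonempty_equiv_of_countable
  obtain ⟨d⟩ : Nonempty (ℕ ≃ Ox × ℕ) := nonempty_equiv_of_countable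
  have hall : ∀ {h h' : ℕ → Ox} {q : ℕ → ℕ}, (∀ i t, px s h' i (q ∘ t) = px s h i t) →
      ∀ i m n, Mx i (h' (q m)) (h' (q n)) ↔ Mx i (h m) (h n) := by
    intro h h' q hq i
    have := (px_eq_iff (s.symm i)).mp (hq _)
    rwa [Equiv.apply_symm_apply] at this
  have key : ∀ x y (h h' : ℕ → Ox), Fx (A x) h → Fx (A y) h' →
      (Nonempty (@Language.ElementaryEmbedding (LL fun _ => 2) ℕ ℕ
        (St (fun _ => 2) (px s h)) (St (fun _ => 2) (px s h'))) ↔ (x, y) ∈ R) := by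
    intro x y h h' hx hy
    constructor
    · rintro ⟨e⟩
      obtain ⟨q, hq⟩ := rel_of_elem e
      obtain ⟨k, hk1, hk2, hk3⟩ := tree_of_emb hx hy (hall hq)
      exact hA2 x y k hk1 hk2 hk3
    · intro hxy
      obtain ⟨γ, hγ, hm⟩ := hA1 x y hxy
      exact elem_of_aut s hx hy hγ hm
  let W : Set (X × (ℕ → ℕ)) := {p | Fx (A p.1) (c ∘ p.2)}
  let Φ : X × (ℕ → ℕ) → (∀ _ : ℕ, (Fin 2 → ℕ) → Bool) := fun p => px s (c ∘ p.2)
  have hc : ∀ (n : ℕ) (ω : Ox), Measurable (fun p : X × (ℕ → ℕ) => (c ∘ p.2) n = ω) := by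
    intro n ω
    exact (Measurable.of_discrete (f := fun k : ℕ => c k = ω)).comp
      ((measurable_pi_apply n).comp measurable_snd)
  have hAm : ∀ ω, Measurable (fun x => A x ω) := fun ω => measurableSet_setOfPred.mp (hA ω)
  have hW : MeasurableSet W := by
    apply measurableSet_setOfPred.mpr
    refine Measurable.forall fun ω => Measurable.and ?_ (Measurable.and ?_ ?_)
    · exact Measurable.forall fun u => Measurable.forall fun N =>
        Measurable.exists fun n => measurable_const.and (hc n _)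
    · exact ((hAm ω).comp measurable_fst).imp (Measurable.forall fun N =>
        Measurable.exists fun n => measurable_const.and (hc n _))
    · exact ((hAm ω).comp measurable_fst).not.imp (Measurable.forall fun n => (hc n _).not)
  have hpb : Measurable (fun h : ℕ → ℕ => px s (c ∘ h)) := by
    refine measurable_pi_lambda _ fun i => measurable_pi_lambda _ fun t => ?_
    have e1 : Measurable (fun h : ℕ → ℕ => (h (t 0), h (t 1))) :=
      (measurable_pi_apply (t 0)).prodMk (measurable_pi_apply (t 1))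
    exact (Measurable.of_discrete
      (f := fun k : ℕ × ℕ => decide (Mx (s i) (c k.1) (c k.2)))).comp e1
  have hΦ : Measurable Φ := hpb.comp measurable_snd
  have hinj : InjOn Φ W := by
    rintro ⟨x, h⟩ hx ⟨y, h'⟩ hy hxy
    have hx' : Fx (A x) (c ∘ h) := hx
    have hy' : Fx (A y) (c ∘ h') := hy
    have h1 := hall (h := c ∘ h) (h' := c ∘ h') (q := id)
      (fun i t => (congrFun (congrFun hxy i) t).symm)
    obtain ⟨γ, hγ, hγ'⟩ := aut_of_epi hx'.surj hy'.surj Function.surjective_id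
      (fun i m n => h1 (Sum.inl i) m n)
    have h2 : ∀ n, ((c ∘ h') n).2 = ((c ∘ h) n).2 := fun n =>
      Pr_ext fun j => h1 (Sum.inr (some j)) n n
    have h5 : ∀ n, (c ∘ h') n = (γ ((c ∘ h) n).1, ((c ∘ h) n).2) := fun n =>
      Prod.ext (hγ' n).symm (h2 n)
    obtain ⟨h3, h4⟩ := hrig x y γ hγ (fun ω => by
      rw [hx'.iff, hy'.iff]
      refine exists_congr fun n => ?_
      rw [h5]
      constructor
      · intro e; rw [e]
      · intro e
        obtain ⟨e1, e2⟩ := Prod.mk.inj e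
        exact Prod.ext (γ.injective e1) e2)
    subst h3
    refine Prod.ext h4 (funext fun n => c.injective ?_)
    exact (h5 n).symm
  obtain ⟨hB, g, hg, hg'⟩ := package hW hΦ hinj
  have hinv : ∀ (σ : Equiv.Perm ℕ) (u : ∀ _ : ℕ, (Fin 2 → ℕ) → Bool),
      u ∈ Φ '' W → (fun i v => u i (σ ∘ v)) ∈ Φ '' W := by
    rintro σ _ ⟨⟨x, h⟩, hx, rfl⟩
    exact ⟨(x, h ∘ σ), Fx.comp (h := c ∘ h) hx σ, rfl⟩
  refine ⟨Φ '' W, hB, fun σ u => ⟨hinv σ u, fun hu => ?_⟩, ?_, g, hg, ?_⟩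
  · have := hinv σ.symm _ hu
    simpa [← Function.comp_assoc] using this
  · let k : X → ℕ → ℕ := fun x n =>
      if (d n).1.2 = none ∧ ¬ A x (d n).1.1 then c.symm ((d n).1.1, some ∅) else c.symm (d n).1
    have hfr : ∀ x (z : Ox), ¬ (z.2 = none ∧ ¬ A x z.1) → ∀ N, ∃ n, N ≤ n ∧ (c ∘ k x) n = z := by
      intro x z hz N
      have h1 : (range (fun m : ℕ => d.symm (z, m))).Infinite :=
        infinite_range_of_injective (fun a b hab => (Prod.mk.inj (d.symm.injective hab)).2)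
      obtain ⟨_, ⟨m, rfl⟩, hm⟩ := h1.exists_gt N
      refine ⟨_, hm.le, ?_⟩
      simp only [k, Function.comp, Equiv.apply_symm_apply, if_neg hz]
    have hk : ∀ x, Fx (A x) (c ∘ k x) := by
      intro x ω
      refine ⟨fun u => hfr x _ (by simp), fun hω => hfr x _ (by simp [hω]), fun hω n hn => ?_⟩
      by_cases h1 : (d n).1.2 = none ∧ ¬ A x (d n).1.1
      · simp [k, if_pos h1] at hn
      · have h2 : (d n).1 = (ω, none) := by simpa [k, if_neg h1] using hn
        exact h1 (by rw [h2]; exact ⟨rfl, hω⟩)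
    have hkm : Measurable k := by
      refine measurable_pi_lambda _ fun n => Measurable.ite ?_ measurable_const measurable_const
      exact (MeasurableSet.const _).inter (hA _).compl
    exact ⟨fun x => px s (c ∘ k x), hpb.comp hkm, fun x => ⟨(x, k x), hk x, rfl⟩,
      fun x y => (key x y _ _ (hk x) (hk y)).symm⟩
  · intro u v
    obtain ⟨h, hu1, hu2⟩ := hg' u
    obtain ⟨h', hv1, hv2⟩ := hg' v
    rw [← hu2, ← hv2]
    exact key _ _ _ _ hu1 hv1

end Pool.Agent.H360Z.QO
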