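import Pool.Agent.H360Z.QO.Pack

set_option autoImplicit false

/-! Epimorphisms between blow-ups of the base structure. -/

namespace Pool.Agent.H360Z.QO

open Filter Topology Set

/-- structures on the natural numbers in the language of the base structure -/
abbrev Md : Type := (Σ _ : Sy, Fin 2 → ℕ) → Bool

open Classical in
/-- the pull-back of the base structure -/
noncomputable def pb (h : ℕ → Om) : Md := fun p => decide (Mr p.1 (h (p.2 0)) (h (p.2 1)))

/-- prescribed fibres -/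
def Fib (a : Om → Prop) (h : ℕ → Om) : Prop :=
  ∀ ω, (a ω → ∀ N, ∃ n, N ≤ n ∧ h n = ω) ∧ (¬ a ω → ∃ n, h n = ω ∧ ∀ m, h m = ω → m = n)

theorem Fib.surj {a : Om → Prop} {h : ℕ → Om} (hf : Fib a h) : Function.Surjective h := by
  intro ω
  by_cases hω : a ω
  · obtain ⟨n, -, hn⟩ := (hf ω).1 hω 0
    exact ⟨n, hn⟩
  · obtain ⟨n, hn, -⟩ := (hf ω).2 hω
    exact ⟨n, hn⟩

theorem Fib.infinite_iff {a : Om → Prop} {h : ℕ → Om} (hf : Fib a h) (ω : Om) :
    {n | h n = ω}.Infinite ↔ a ω := by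
  constructor
  · intro hi
    by_contra hω
    obtain ⟨n, -, hn⟩ := (hf ω).2 hω
    exact hi ((finite_singleton n).subset fun m hm => hn m hm)
  · intro hω
    apply infinite_of_forall_exists_gt
    intro N
    obtain ⟨n, hn1, hn2⟩ := (hf ω).1 hω (N + 1)
    exact ⟨n, hn2, hn1⟩

theorem Fib.comp {a : Om → Prop} {h : ℕ → Om} (hf : Fib a h) (σ : Equiv.Perm ℕ) :
    Fib a (h ∘ σ) := by
  intro ω
  constructor
  · intro hω N
    have h1 := (hf.infinite_iff ω).mpr hω
    have h2 : {n | (h ∘ σ) n = ω}.Infinite := by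
      have := h1.preimage (f := σ) (by rw [σ.range_eq_univ]; exact subset_univ _)
      exact this
    obtain ⟨n, hn1, hn2⟩ := h2.exists_gt N
    exact ⟨n, hn2.le, hn1⟩
  · intro hω
    obtain ⟨n, hn1, hn2⟩ := (hf ω).2 hω
    refine ⟨σ.symm n, by simp [hn1], fun m hm => ?_⟩
    rw [← hn2 _ hm, Equiv.symm_apply_apply]

theorem pb_eq_iff {h h' : ℕ → Om} {q : ℕ → ℕ} :
    (∀ p : (Σ _ : Sy, Fin 2 → ℕ), pb h' p = pb h ⟨p.1, q ∘ p.2⟩) ↔
      ∀ i a b, Mr i (h' a) (h' b) ↔ Mr i (h (q a)) (h (q b)) := by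
  constructor
  · intro hp i a b
    have := hp ⟨i, ![a, b]⟩
    simpa [pb] using this
  · intro hp p
    simp only [pb, Function.comp, decide_eq_decide]
    exact hp _ _ _

/-- an epimorphism of blow-ups induces an automorphism of the base structure -/
theorem aut_of_epi {h h' : ℕ → Om} (hh : Function.Surjective h) (hh' : Function.Surjective h')
    {q : ℕ → ℕ} (hq : Function.Surjective q)
    (hp : ∀ i a b, Mr i (h' a) (h' b) ↔ Mr i (h (q a)) (h (q b))) :
    ∃ γ : Om ≃ Om, IsAut γ ∧ ∀ a, γ (h (q a)) = h' a := by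
  have key : ∀ a b, h' a = h' b ↔ h (q a) = h (q b) := by
    intro a b
    constructor
    · intro hab
      apply Mr_red
      intro i
      rw [← hp, ← hp, hab]
    · intro hab
      apply Mr_red
      intro i
      rw [hp, hp, hab]
  have hhq : Function.Surjective (fun a => h (q a)) := hh.comp hq
  let g : Om → Om := fun ω => h' (Function.surjInv hhq ω)
  have hg : ∀ a, g (h (q a)) = h' a := fun a =>
    (key _ _).mpr (Function.surjInv_eq hhq (h (q a)))
  have hbij : Function.Bijective g := by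
    constructor
    · intro ω ω' hω
      obtain ⟨a, rfl⟩ := hhq ω
      obtain ⟨b, rfl⟩ := hhq ω'
      rw [hg, hg] at hω
      exact (key _ _).mp hω
    · intro ω
      obtain ⟨a, rfl⟩ := hh' ω
      exact ⟨_, hg a⟩
  refine ⟨Equiv.ofBijective g hbij, ?_, hg⟩
  intro i ω ω'
  obtain ⟨a, rfl⟩ := hhq ω
  obtain ⟨b, rfl⟩ := hhq ω'
  simp only [Equiv.ofBijective_apply, hg]
  exact hp _ _ _

theorem exists_onto {S T : Set ℕ} (hT : T.Nonempty)
    (h : S.Infinite ∨ (S.Nonempty ∧ T.Subsingleton)) :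
    ∃ q : ℕ → ℕ, (∀ n ∈ S, q n ∈ T) ∧ ∀ m ∈ T, ∃ n ∈ S, q n = m := by
  classical
  obtain ⟨m0, hm0⟩ := hT
  rcases h with h | ⟨⟨n0, hn0⟩, h⟩
  · let e := h.natEmbedding
    let r : ℕ → ℕ := Function.invFun (fun k => (e k : ℕ))
    have hr : ∀ k, r (e k) = k :=
      Function.leftInverse_invFun (Subtype.val_injective.comp e.injective)
    refine ⟨fun n => if r n ∈ T then r n else m0, fun n _ => ?_, fun m hm => ⟨e m, (e m).2, ?_⟩⟩
    · by_cases h1 : r n ∈ T
      · simp only [if_pos h1]; exact h1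
      · simp only [if_neg h1]; exact hm0
    · simp only [hr, if_pos hm]
  · exact ⟨fun _ => m0, fun _ _ => hm0, fun m hm => ⟨n0, hn0, h hm0 hm⟩⟩

theorem epi_iff {a a' : Om → Prop} {h h' : ℕ → Om} (hf : Fib a h) (hf' : Fib a' h') :
    (∃ q : ℕ → ℕ, Function.Surjective q ∧
      ∀ p : (Σ _ : Sy, Fin 2 → ℕ), pb h' p = pb h ⟨p.1, q ∘ p.2⟩) ↔
    ∃ γ : Om ≃ Om, IsAut γ ∧ ∀ ω, a ω → a' (γ ω) := by
  constructor
  · rintro ⟨q, hq, hp⟩
    obtain ⟨γ, hγ, hγ'⟩ := aut_of_epi hf.surj hf'.surj hq (pb_eq_iff.mp hp)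
    refine ⟨γ, hγ, fun ω hω => ?_⟩
    rw [← hf'.infinite_iff]
    have h1 := (hf.infinite_iff ω).mpr hω
    refine Infinite.of_image q (h1.mono ?_)
    intro n hn
    obtain ⟨m, rfl⟩ := hq n
    refine ⟨m, ?_, rfl⟩
    change h' m = γ ω
    rw [← hγ', show h (q m) = ω from hn]
  · rintro ⟨γ, hγ, hm⟩
    have h1 : ∀ ω, ∃ q : ℕ → ℕ, (∀ n ∈ {n | h' n = γ ω}, q n ∈ {n | h n = ω}) ∧
        ∀ m ∈ {n | h n = ω}, ∃ n ∈ {n | h' n = γ ω}, q n = m := by
      intro ω
      apply exists_onto (hf.surj ω)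
      by_cases hω : a ω
      · exact Or.inl ((hf'.infinite_iff _).mpr (hm ω hω))
      · right
        obtain ⟨n, -, hn⟩ := (hf ω).2 hω
        exact ⟨hf'.surj _, fun k hk l hl => (hn k hk).trans (hn l hl).symm⟩
    choose q hq1 hq2 using h1
    have h2 : ∀ n, h (q (γ.symm (h' n)) n) = γ.symm (h' n) := fun n =>
      hq1 _ n (by simp)
    refine ⟨fun n => q (γ.symm (h' n)) n, ?_, pb_eq_iff.mpr ?_⟩
    · intro m
      obtain ⟨n, hn1, hn2⟩ := hq2 (h m) m rfl
      refine ⟨n, ?_⟩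
      have : h' n = γ (h m) := hn1
      simp only [this, Equiv.symm_apply_apply, hn2]
    · intro i n m
      rw [h2, h2, ← hγ i (γ.symm _), Equiv.apply_symm_apply, Equiv.apply_symm_apply]

theorem epi_main (X : Type) [TopologicalSpace X] [PolishSpace X] [MeasurableSpace X]
    [BorelSpace X] (R : Set (X × X)) (hR : MeasureTheory.AnalyticSet R)
    (hrefl : ∀ x, (x, x) ∈ R) (htr : ∀ x y z, (x, y) ∈ R → (y, z) ∈ R → (x, z) ∈ R) :
    ∃ B : Set Md, MeasurableSet B ∧
      (∀ σ : Equiv.Perm ℕ, ∀ x ∈ B,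
        (fun p : (Σ _ : Sy, Fin 2 → ℕ) => x ⟨p.1, ⇑σ ∘ p.2⟩) ∈ B) ∧
      (∃ f : X → Md, Measurable f ∧ (∀ x, f x ∈ B) ∧
        ∀ x y, (x, y) ∈ R ↔ ∃ h : ℕ → ℕ, Function.Surjective h ∧
            ∀ p : (Σ _ : Sy, Fin 2 → ℕ), f y p = f x ⟨p.1, h ∘ p.2⟩) ∧
      (∃ g : B → X, Measurable g ∧ ∀ u v : B,
          (∃ h : ℕ → ℕ, Function.Surjective h ∧
            ∀ p : (Σ _ : Sy, Fin 2 → ℕ), v.1 p = u.1 ⟨p.1, h ∘ p.2⟩) ↔ (g u, g v) ∈ R) := by
  classical
  obtain ⟨A, hA, hA0, hAR, hrig⟩ := exists_base X R hR hrefl htr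
  obtain ⟨c⟩ : Nonempty (ℕ ≃ Om) := nonempty_equiv_of_countable
  obtain ⟨d⟩ : Nonempty (ℕ ≃ Om × ℕ) := nonempty_equiv_of_countable
  let W : Set (X × (ℕ → ℕ)) := {p | Fib (A p.1) (c ∘ p.2)}
  let Φ : X × (ℕ → ℕ) → Md := fun p => pb (c ∘ p.2)
  have hc : ∀ (n : ℕ) (ω : Om), Measurable (fun p : X × (ℕ → ℕ) => (c ∘ p.2) n = ω) := by
    intro n ω
    exact (Measurable.of_discrete (f := fun k : ℕ => c k = ω)).comp
      ((measurable_pi_apply n).comp measurable_snd)
  have hAm : ∀ ω, Measurable (fun x => A x ω) := fun ω => measurableSet_setOfPred.mp (hA ω)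
  have hW : MeasurableSet W := by
    apply measurableSet_setOfPred.mpr
    refine Measurable.forall fun ω => Measurable.and ?_ ?_
    · refine ((hAm ω).comp measurable_fst).imp (Measurable.forall fun N =>
        Measurable.exists fun n => measurable_const.and (hc n ω))
    · refine ((hAm ω).comp measurable_fst).not.imp (Measurable.exists fun n =>
        (hc n ω).and (Measurable.forall fun m => (hc m ω).imp measurable_const))
  have hpb : Measurable (fun h : ℕ → ℕ => pb (c ∘ h)) := by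
    refine measurable_pi_lambda _ fun p => ?_
    have e1 : Measurable (fun h : ℕ → ℕ => (h (p.2 0), h (p.2 1))) :=
      (measurable_pi_apply (p.2 0)).prodMk (measurable_pi_apply (p.2 1))
    exact (Measurable.of_discrete
      (f := fun k : ℕ × ℕ => decide (Mr p.1 (c k.1) (c k.2)))).comp e1
  have hΦ : Measurable Φ := hpb.comp measurable_snd
  have hinj : InjOn Φ W := by
    rintro ⟨x, h⟩ hx ⟨y, h'⟩ hy hxy
    have hx' : Fib (A x) (c ∘ h) := hx
    have hy' : Fib (A y) (c ∘ h') := hy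
    have h1 : ∀ p : (Σ _ : Sy, Fin 2 → ℕ), pb (c ∘ h') p = pb (c ∘ h) ⟨p.1, id ∘ p.2⟩ :=
      fun p => (congrFun hxy p).symm
    obtain ⟨γ, hγ, hγ'⟩ := aut_of_epi hx'.surj hy'.surj Function.surjective_id (pb_eq_iff.mp h1)
    obtain ⟨h2, h3⟩ := hrig x y γ hγ (fun ω => by
      rw [← hx'.infinite_iff, ← hy'.infinite_iff]
      have : {n | (c ∘ h') n = γ ω} = {n | (c ∘ h) n = ω} := by
        ext n
        simp only [mem_ofPred_eq, ← hγ' n, id, γ.injective.eq_iff]
      rw [this])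
    subst h2
    refine Prod.ext h3 (funext fun n => c.injective ?_)
    exact hγ' n
  obtain ⟨hB, g, hg, hg'⟩ := package hW hΦ hinj
  refine ⟨Φ '' W, hB, ?_, ?_, g, hg, ?_⟩
  · rintro σ _ ⟨⟨x, h⟩, hx, rfl⟩
    exact ⟨(x, h ∘ σ), Fib.comp (h := c ∘ h) hx σ, rfl⟩
  · let ω0 : Om := ([], Sum.inl 0)
    let k : X → ℕ → ℕ := fun x n =>
      if (d n).2 = 0 ∨ A x (d n).1 then c.symm (d n).1 else c.symm ω0
    have hk : ∀ x, Fib (A x) (c ∘ k x) := by
      intro x ω
      constructor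
      · intro hω N
        have h1 : (range (fun m : ℕ => d.symm (ω, m))).Infinite :=
          infinite_range_of_injective (fun a b hab => (Prod.mk.inj (d.symm.injective hab)).2)
        obtain ⟨_, ⟨m, rfl⟩, hm⟩ := h1.exists_gt N
        exact ⟨_, hm.le, by simp [k, hω]⟩
      · intro hω
        refine ⟨d.symm (ω, 0), by simp [k], fun m hm => ?_⟩
        by_cases h1 : (d m).2 = 0 ∨ A x (d m).1
        · have h2 : (d m).1 = ω := by simpa [k, if_pos h1] using hm
          rcases h1 with h1 | h1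
          · rw [← h2, ← h1]; simp
          · exact absurd (h2 ▸ h1) hω
        · have h2 : ω0 = ω := by simpa [k, if_neg h1] using hm
          exact absurd (h2 ▸ hA0 x _) hω
    have hkm : Measurable k := by
      refine measurable_pi_lambda _ fun n => Measurable.ite ?_ measurable_const measurable_const
      exact (MeasurableSet.const _).union (hA _)
    refine ⟨fun x => pb (c ∘ k x), hpb.comp hkm, fun x => ⟨(x, k x), hk x, rfl⟩, fun x y => ?_⟩
    rw [hAR, ← epi_iff (hk x) (hk y)]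
  · intro u v
    obtain ⟨h, hu1, hu2⟩ := hg' u
    obtain ⟨h', hv1, hv2⟩ := hg' v
    rw [hAR, ← hu2, ← hv2]
    exact epi_iff (h := c ∘ h) (h' := c ∘ h') hu1 hv1

end Pool.Agent.H360Z.QO
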