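import Mathlib

set_option autoImplicit false

/-! Normal form of an analytic quasi-order on the Cantor space (after Louveau and Rosendal). -/

namespace Pool.Agent.H360Z.QO

open Filter Topology Set

/-- The Cantor space. -/
abbrev Can : Type := ℕ → Bool

/-- agreement below `n` -/
def Ag (n : ℕ) (x y : Can) : Prop := ∀ i < n, x i = y i

theorem Ag.refl (n : ℕ) (x : Can) : Ag n x x := fun _ _ => rfl

theorem Ag.symm {n : ℕ} {x y : Can} (h : Ag n x y) : Ag n y x := fun i hi => (h i hi).symm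

theorem Ag.trans {n : ℕ} {x y z : Can} (h : Ag n x y) (h' : Ag n y z) : Ag n x z :=
  fun i hi => (h i hi).trans (h' i hi)

theorem Ag.mono {n m : ℕ} {x y : Can} (h : Ag n x y) (hm : m ≤ n) : Ag m x y :=
  fun i hi => h i (lt_of_lt_of_le hi hm)

section

variable (G : (ℕ → ℕ) → Can × Can)

/-- one step -/
def Q (n : ℕ) (s : ℕ → ℕ) (x y : Can) : Prop :=
  Ag n x y ∨ ∃ α : ℕ → ℕ, (∀ i < n, α i ≤ s i) ∧ Ag n (G α).1 x ∧ Ag n (G α).2 y

/-- chains of steps -/
def S (n : ℕ) (s : ℕ → ℕ) : ℕ → Can → Can → Prop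
  | 0, x, y => Ag n x y
  | k + 1, x, y => ∃ z, Q G n s x z ∧ S n s k z y

variable {G}

theorem Q.loc {n m : ℕ} {s s' : ℕ → ℕ} {x y x' y' : Can} (h : Q G n s x y) (hm : m ≤ n)
    (hs : ∀ i < m, s i ≤ s' i) (hx : Ag m x x') (hy : Ag m y y') : Q G m s' x' y' := by
  rcases h with h | ⟨α, h1, h2, h3⟩
  · exact Or.inl (hx.symm.trans ((h.mono hm).trans hy))
  · exact Or.inr ⟨α, fun i hi => (h1 i (lt_of_lt_of_le hi hm)).trans (hs i hi),
      (h2.mono hm).trans hx, (h3.mono hm).trans hy⟩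

theorem S.loc {n m : ℕ} {s s' : ℕ → ℕ} (hm : m ≤ n) (hs : ∀ i < m, s i ≤ s' i) :
    ∀ {k : ℕ} {x y x' y' : Can}, S G n s k x y → Ag m x x' → Ag m y y' → S G m s' k x' y' := by
  intro k
  induction k with
  | zero =>
    intro x y x' y' h hx hy
    exact hx.symm.trans ((Ag.mono h hm).trans hy)
  | succ k ih =>
    rintro x y x' y' ⟨z, h1, h2⟩ hx hy
    exact ⟨z, h1.loc hm hs hx (Ag.refl _ _), ih h2 (Ag.refl _ _) hy⟩

theorem S.succ {n : ℕ} {s : ℕ → ℕ} {k : ℕ} {x y : Can} (h : S G n s k x y) :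
    S G n s (k + 1) x y := ⟨x, Or.inl (Ag.refl _ _), h⟩

theorem S.monok {n : ℕ} {s : ℕ → ℕ} {k l : ℕ} {x y : Can} (h : S G n s k x y) (hk : k ≤ l) :
    S G n s l x y := by
  induction l, hk using Nat.le_induction with
  | base => exact h
  | succ l _ ih => exact ih.succ

theorem S.trans {n : ℕ} {s : ℕ → ℕ} {l : ℕ} : ∀ {k : ℕ} {x y z : Can}, S G n s k x y →
    S G n s l y z → S G n s (l + k) x z := by
  intro k
  induction k with
  | zero =>
    intro x y z h1 h2
    exact S.loc le_rfl (fun _ _ => le_rfl) h2 (Ag.symm h1) (Ag.refl _ _)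
  | succ k ih =>
    rintro x y z ⟨w, h1, h2⟩ h3
    exact ⟨w, h1, ih h2 h3⟩

theorem Q.closed (hG : Continuous G) {s : ℕ → ℕ} {x y : Can} (h : ∀ n, Q G n s x y) :
    x = y ∨ (x, y) ∈ range G := by
  by_cases hxy : x = y
  · exact Or.inl hxy
  right
  obtain ⟨i0, hi0⟩ := Function.ne_iff.mp hxy
  have h1 : ∀ n : ℕ, ∃ α : ℕ → ℕ, (∀ i < n, α i ≤ s i) ∧ Ag n (G α).1 x ∧ Ag n (G α).2 y := by
    intro n
    rcases h (n + i0 + 1) with h2 | ⟨α, h2, h3, h4⟩
    · exact absurd (h2 i0 (by omega)) hi0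
    · exact ⟨α, fun i hi => h2 i (by omega), h3.mono (by omega), h4.mono (by omega)⟩
  choose α hα1 hα2 hα3 using h1
  have h2 : ∀ j : ℕ, ∃ b : ℕ, ∀ᶠ n in (hyperfilter ℕ : Filter ℕ), α n j = b := by
    intro j
    have h3 : ∀ᶠ n in (hyperfilter ℕ : Filter ℕ), ∃ b ∈ Finset.range (s j + 1), α n j = b := by
      apply Nat.hyperfilter_le_atTop
      filter_upwards [eventually_gt_atTop j] with n hn
      exact ⟨α n j, Finset.mem_range.mpr (Nat.lt_succ_of_le (hα1 n j hn)), rfl⟩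
    obtain ⟨b, -, hb⟩ := (Ultrafilter.eventually_exists_mem_iff (Finset.finite_toSet _)).mp h3
    exact ⟨b, hb⟩
  choose b hb using h2
  have h3 : Tendsto α (hyperfilter ℕ : Filter ℕ) (𝓝 b) := by
    rw [tendsto_pi_nhds]
    intro j
    exact tendsto_const_nhds.congr' ((hb j).mono fun n hn => hn.symm)
  have h4 : Tendsto (fun n => G (α n)) (hyperfilter ℕ : Filter ℕ) (𝓝 (G b)) :=
    (hG.tendsto b).comp h3
  have h5 : Tendsto (fun n => G (α n)) atTop (𝓝 (x, y)) := by
    rw [Prod.tendsto_iff]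
    constructor
    · rw [tendsto_pi_nhds]
      intro j
      refine tendsto_const_nhds.congr' ?_
      filter_upwards [eventually_gt_atTop j] with n hn
      exact (hα2 n j hn).symm
    · rw [tendsto_pi_nhds]
      intro j
      refine tendsto_const_nhds.congr' ?_
      filter_upwards [eventually_gt_atTop j] with n hn
      exact (hα3 n j hn).symm
  exact ⟨b, tendsto_nhds_unique h4 (h5.mono_left Nat.hyperfilter_le_atTop)⟩

theorem S.closed (hG : Continuous G)
    (htr : ∀ x y z : Can, (x, y) ∈ range G → (y, z) ∈ range G → (x, z) ∈ range G)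
    {s : ℕ → ℕ} : ∀ {k : ℕ} {x y : Can}, (∀ n, S G n s k x y) → x = y ∨ (x, y) ∈ range G := by
  intro k
  induction k with
  | zero =>
    intro x y h
    left
    funext i
    exact h (i + 1) i (Nat.lt_succ_self i)
  | succ k ih =>
    intro x y h
    choose z hz1 hz2 using h
    obtain ⟨w, -, hw⟩ := (isCompact_univ (X := Can)).ultrafilter_le_nhds
      ((hyperfilter ℕ).map z) (by simp)
    have hw' : Tendsto z (hyperfilter ℕ : Filter ℕ) (𝓝 w) := hw
    rw [tendsto_pi_nhds] at hw'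
    have key : ∀ n, ∃ m, n ≤ m ∧ Ag n (z m) w := by
      intro n
      have h1 : ∀ᶠ m in (hyperfilter ℕ : Filter ℕ), ∀ i ∈ Finset.range n, z m i = w i := by
        rw [Filter.eventually_all_finset]
        intro i _
        have := hw' i
        rw [nhds_discrete, tendsto_pure] at this
        exact this
      have h2 : ∀ᶠ m in (hyperfilter ℕ : Filter ℕ), n ≤ m :=
        Nat.hyperfilter_le_atTop (eventually_ge_atTop n)
      obtain ⟨m, hm1, hm2⟩ := (h1.and h2).exists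
      exact ⟨m, hm2, fun i hi => hm1 i (Finset.mem_range.mpr hi)⟩
    have h1 : ∀ n, Q G n s x w := by
      intro n
      obtain ⟨m, hm1, hm2⟩ := key n
      exact (hz1 m).loc hm1 (fun _ _ => le_rfl) (Ag.refl _ _) hm2
    have h2 : ∀ n, S G n s k w y := by
      intro n
      obtain ⟨m, hm1, hm2⟩ := key n
      exact S.loc hm1 (fun _ _ => le_rfl) (hz2 m) hm2 (Ag.refl _ _)
    rcases Q.closed hG h1 with h3 | h3
    · rw [h3]; exact ih h2
    · rcases ih h2 with h4 | h4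
      · rw [← h4]; exact Or.inr h3
      · exact Or.inr (htr _ _ _ h3 h4)

end

/-- A normal form for the relation `T` on the Cantor space. -/
structure NF (T : Can → Can → Prop) (P : ℕ → (ℕ → ℕ) → Can → Can → Prop) : Prop where
  loc : ∀ {n : ℕ} {s s' : ℕ → ℕ} {x y x' y' : Can}, P n s x y → (∀ i ≤ n, s i ≤ s' i) →
    Ag n x x' → Ag n y y' → P n s' x' y'
  trans : ∀ {n : ℕ} {s t : ℕ → ℕ} {x y z : Can}, P n s x y → P n t y z → P n (s + t) x z
  zero : ∀ {n : ℕ} {s : ℕ → ℕ} {x y : Can}, s 0 = 0 → (P n s x y ↔ Ag n x y)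
  closed : ∀ {s : ℕ → ℕ} {x y : Can}, (∀ n, P n s x y) → T x y
  wit : ∀ {x y : Can}, T x y → ∃ s : ℕ → ℕ, ∀ n, P n s x y

theorem exists_NF (G : (ℕ → ℕ) → Can × Can) (hG : Continuous G)
    (htr : ∀ x y z : Can, (x, y) ∈ range G → (y, z) ∈ range G → (x, z) ∈ range G) :
    ∃ P, NF (fun x y => x = y ∨ (x, y) ∈ range G) P := by
  refine ⟨fun n s x y => S G n s (s 0) x y, ?_, ?_, ?_, ?_, ?_⟩
  · intro n s s' x y x' y' h hs hx hy
    exact (S.loc le_rfl (fun i hi => hs i hi.le) h hx hy).monok (hs 0 (Nat.zero_le _))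
  · intro n s t x y z h1 h2
    have h3 : S G n (s + t) (s 0) x y :=
      S.loc le_rfl (fun i _ => Nat.le_add_right _ _) h1 (Ag.refl _ _) (Ag.refl _ _)
    have h4 : S G n (s + t) (t 0) y z :=
      S.loc le_rfl (fun i _ => Nat.le_add_left _ _) h2 (Ag.refl _ _) (Ag.refl _ _)
    exact (h3.trans h4).monok (by simp [add_comm])
  · intro n s x y hs
    simp only [hs]
    rfl
  · intro s x y h
    exact S.closed hG htr h
  · rintro x y (rfl | ⟨α, hα⟩)
    · exact ⟨0, fun n => Ag.refl _ _⟩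
    · refine ⟨fun i => α i + 1, fun n => ?_⟩
      have h1 : S G n (fun i => α i + 1) 1 x y :=
        ⟨y, Or.inr ⟨α, fun i _ => Nat.le_succ _, by rw [hα]; exact Ag.refl _ _,
          by rw [hα]; exact Ag.refl _ _⟩, Ag.refl _ _⟩
      exact h1.monok (Nat.le_add_left _ _)

theorem NF.measurable {T : Can → Can → Prop} {P : ℕ → (ℕ → ℕ) → Can → Can → Prop} (h : NF T P)
    (n : ℕ) (s : ℕ → ℕ) (u : Can) : MeasurableSet {y : Can | P n s u y} := by
  classical
  let r : Can → (Fin n → Bool) := fun y i => y i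
  let ex : (Fin n → Bool) → Can := fun v i => if hi : i < n then v ⟨i, hi⟩ else false
  have hr : Measurable r := measurable_pi_lambda _ fun i => measurable_pi_apply _
  have hag : ∀ y, Ag n y (ex (r y)) := fun y i hi => by simp [ex, r, hi]
  have : {y : Can | P n s u y} = r ⁻¹' {v | P n s u (ex v)} := by
    ext y
    exact ⟨fun hy => h.loc hy (fun _ _ => le_rfl) (Ag.refl _ _) (hag y),
      fun hy => h.loc hy (fun _ _ => le_rfl) (Ag.refl _ _) (hag y).symm⟩
  rw [this]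
  exact hr MeasurableSet.of_discrete

/-- Transfer to an arbitrary Polish space. -/
theorem exists_NF_polish (X : Type) [TopologicalSpace X] [PolishSpace X] [MeasurableSpace X]
    [BorelSpace X] [Nonempty X] (R : Set (X × X)) (hR : MeasureTheory.AnalyticSet R)
    (hrefl : ∀ x, (x, x) ∈ R) (htr : ∀ x y z, (x, y) ∈ R → (y, z) ∈ R → (x, z) ∈ R) :
    ∃ (e : X → Can) (T : Can → Can → Prop) (P : ℕ → (ℕ → ℕ) → Can → Can → Prop),
      Measurable e ∧ Function.Injective e ∧ NF T P ∧ ∀ x y, (x, y) ∈ R ↔ T (e x) (e y) := by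
  obtain ⟨e, he, hinj⟩ := MeasurableSpace.measurable_injection_nat_bool_of_countablySeparated X
  have hne : R.Nonempty := ⟨_, hrefl (Classical.arbitrary X)⟩
  rw [MeasureTheory.AnalyticSet] at hR
  rcases hR with hR | ⟨F, hF, hFR⟩
  · exact absurd hR hne.ne_empty
  have hm : Measurable (fun a => Prod.map e e (F a)) := (he.prodMap he).comp hF.measurable
  have han := MeasurableSet.univ.analyticSet_image hm
  rw [image_univ] at han
  rw [MeasureTheory.AnalyticSet] at han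
  rcases han with han | ⟨G, hG, hGR⟩
  · exact absurd han (range_nonempty _).ne_empty
  have hmem : ∀ p, p ∈ range G ↔ ∃ x y, (x, y) ∈ R ∧ p = (e x, e y) := by
    intro p
    rw [hGR]
    constructor
    · rintro ⟨a, rfl⟩
      exact ⟨(F a).1, (F a).2, by rw [← hFR]; exact ⟨a, rfl⟩, rfl⟩
    · rintro ⟨x, y, hxy, rfl⟩
      rw [← hFR] at hxy
      obtain ⟨a, ha⟩ := hxy
      exact ⟨a, by simp [ha]⟩
  obtain ⟨P, hP⟩ := exists_NF G hG (by
    intro x y z h1 h2
    obtain ⟨a, b, hab, h3⟩ := (hmem _).mp h1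
    obtain ⟨c, d, hcd, h4⟩ := (hmem _).mp h2
    obtain ⟨rfl, rfl⟩ := Prod.mk.inj h3
    obtain ⟨h5, rfl⟩ := Prod.mk.inj h4
    obtain rfl := hinj h5
    exact (hmem _).mpr ⟨a, d, htr _ _ _ hab hcd, rfl⟩)
  refine ⟨e, _, P, he, hinj, hP, fun x y => ⟨fun h => Or.inr ((hmem _).mpr ⟨x, y, h, rfl⟩), ?_⟩⟩
  rintro (h | h)
  · rw [hinj h]; exact hrefl y
  · obtain ⟨a, b, hab, h3⟩ := (hmem _).mp h
    obtain ⟨h4, h5⟩ := Prod.mk.inj h3
    rw [hinj h4, hinj h5]; exact hab

end Pool.Agent.H360Z.QO
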