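import Pool.Agent.H360Z.QO.Tree

set_option autoImplicit false

/-! Lusin-Souslin packaging. -/

namespace Pool.Agent.H360Z.QO

open Filter Topology Set

theorem package {X Y Z : Type} [MeasurableSpace X] [StandardBorelSpace X] [MeasurableSpace Y]
    [StandardBorelSpace Y] [MeasurableSpace Z] [MeasurableSpace.CountablySeparated Z]
    {W : Set (X × Y)} (hW : MeasurableSet W) {Φ : X × Y → Z} (hΦ : Measurable Φ)
    (hinj : InjOn Φ W) : MeasurableSet (Φ '' W) ∧ ∃ g : (Φ '' W : Set Z) → X, Measurable g ∧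
      ∀ u : (Φ '' W : Set Z), ∃ y, (g u, y) ∈ W ∧ Φ (g u, y) = u.1 := by
  refine ⟨hW.image_of_measurable_injOn hΦ hinj, ?_⟩
  have h1 : ∀ u : (Φ '' W : Set Z), ∃ p ∈ W, Φ p = u.1 := fun u => u.2
  choose p hp1 hp2 using h1
  refine ⟨fun u => (p u).1, ?_, fun u => ⟨(p u).2, hp1 u, hp2 u⟩⟩
  intro U hU
  have h2 : MeasurableSet (Φ '' (W ∩ Prod.fst ⁻¹' U)) :=
    (hW.inter (measurable_fst hU)).image_of_measurable_injOn hΦ (hinj.mono inter_subset_left)
  have h3 : (fun u => (p u).1) ⁻¹' U = Subtype.val ⁻¹' (Φ '' (W ∩ Prod.fst ⁻¹' U)) := by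
    ext u
    constructor
    · intro hu
      exact ⟨p u, ⟨hp1 u, hu⟩, hp2 u⟩
    · rintro ⟨q, ⟨hq1, hq2⟩, hq3⟩
      have : q = p u := hinj hq1 (hp1 u) (hq3.trans (hp2 u).symm)
      rw [this] at hq2
      exact hq2
  rw [h3]
  exact measurable_subtype_coe h2

end Pool.Agent.H360Z.QO
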