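import Pool.Agent.H360Z.QO.Normal

set_option autoImplicit false

/-! A fixed countable structure with rigid monotone labellings. -/

namespace Pool.Agent.H360Z.QO

open Filter Topology Set

/-- label indices -/
abbrev Lab : Type := ℤ ⊕ Finset ℕ

/-- points of the base structure -/
abbrev Om : Type := List ℤ × Lab

/-- relation symbols of the base structure -/
abbrev Sy : Type := Bool ⊕ Lab

/-- the base structure -/
def Mr : Sy → Om → Om → Prop
  | Sum.inl false, a, b => a.1 = b.1
  | Sum.inl true, a, b => ∃ c, b.1 = c :: a.1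
  | Sum.inr j, _, b => b.2 = j

/-- automorphisms of the base structure -/
def IsAut (γ : Om ≃ Om) : Prop := ∀ i a b, Mr i (γ a) (γ b) ↔ Mr i a b

theorem Mr_red (a b : Om) (h : ∀ i, Mr i a a ↔ Mr i a b) : a = b := by
  have h1 : a.1 = b.1 := (h (Sum.inl false)).mp rfl
  have h2 : b.2 = a.2 := (h (Sum.inr a.2)).mp rfl
  exact Prod.ext h1 h2.symm

theorem IsAut.struct {γ : Om ≃ Om} (h : IsAut γ) : ∃ k : List ℤ → List ℤ,
    (∀ ω, γ ω = (k ω.1, ω.2)) ∧ k [] = [] ∧ ∀ c s, ∃ c', k (c :: s) = c' :: k s := by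
  have h1 : ∀ ω : Om, γ ω = ((γ (ω.1, Sum.inl 0)).1, ω.2) := by
    intro ω
    refine Prod.ext ?_ ?_
    · exact (h (Sum.inl false) ω (ω.1, Sum.inl 0)).mpr rfl
    · exact (h (Sum.inr ω.2) ω ω).mpr rfl
  refine ⟨fun t => (γ (t, Sum.inl 0)).1, h1, ?_, ?_⟩
  · by_contra hne
    obtain ⟨c, s, hs⟩ := List.exists_cons_of_ne_nil hne
    obtain ⟨ω, hω⟩ := γ.surjective (s, Sum.inl 0)
    have h2 : Mr (Sum.inl true) (γ ω) (γ ([], Sum.inl 0)) := ⟨c, by rw [hω]; exact hs⟩
    obtain ⟨c', hc'⟩ := (h _ _ _).mp h2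
    exact absurd hc' (by simp)
  · intro c s
    exact (h (Sum.inl true) (s, Sum.inl 0) (c :: s, Sum.inl 0)).mpr ⟨c, rfl⟩

/-- the sequence read along a node -/
def sq : List ℤ → ℕ → ℕ
  | [] => 0
  | a :: t => Function.update (sq t) t.length a.toNat

/-- indicator of a finite set -/
def ind (u : Finset ℕ) : Can := fun i => decide (i ∈ u)

/-- truncation of a point of the Cantor space -/
def trn (n : ℕ) (x : Can) : Finset ℕ := (Finset.range n).filter (fun i => x i = true)

theorem ag_trn (n : ℕ) (x : Can) : Ag n (ind (trn n x)) x := by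
  intro i hi
  simp only [ind, trn, Finset.mem_filter, Finset.mem_range, hi, true_and]
  cases x i <;> simp

/-- the labelling -/
def Lb (P : ℕ → (ℕ → ℕ) → Can → Can → Prop) (y : Can) : Om → Prop
  | ([], _) => True
  | (a :: _, Sum.inl k) => k ≤ a
  | (a :: t, Sum.inr u) => (∀ b ∈ a :: t, 0 ≤ b) ∧ P t.length (sq (a :: t)) (ind u) y

theorem sq_replicate (n : ℕ) : sq (List.replicate n 0) = 0 := by
  induction n with
  | zero => rfl
  | succ n ih =>
    rw [List.replicate_succ, sq, ih]
    simp

section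

variable {T : Can → Can → Prop} {P : ℕ → (ℕ → ℕ) → Can → Can → Prop}

theorem lb_zero (h : NF T P) (x : Can) (n : ℕ) :
    Lb P x ((0 : ℤ) :: List.replicate n 0, Sum.inr (trn n x)) := by
  refine ⟨fun b hb => ?_, ?_⟩
  · rw [← List.replicate_succ] at hb
    rw [List.eq_of_mem_replicate hb]
  · rw [← List.replicate_succ, sq_replicate, List.length_replicate]
    exact (h.zero rfl).mpr (ag_trn n x)

theorem T_of_mono (h : NF T P) {x y : Can} {k : List ℤ → List ℤ} (hk0 : k [] = [])
    (hk : ∀ c s, ∃ c', k (c :: s) = c' :: k s)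
    (hm : ∀ t j, Lb P x (t, j) → Lb P y (k t, j)) : T x y := by
  choose b hb using fun n : ℕ => hk 0 (List.replicate n 0)
  have hlen : ∀ n, (k (List.replicate n 0)).length = n := by
    intro n
    induction n with
    | zero => simp [hk0]
    | succ n ih => rw [List.replicate_succ, hb, List.length_cons, ih]
  have hsq : ∀ n, ∀ i < n, sq (k (List.replicate n 0)) i = (b i).toNat := by
    intro n
    induction n with
    | zero => intro i hi; omega
    | succ n ih =>
      intro i hi
      rw [List.replicate_succ, hb, sq, hlen]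
      rcases Nat.lt_succ_iff_lt_or_eq.mp hi with h1 | rfl
      · rw [Function.update_of_ne h1.ne, ih i h1]
      · rw [Function.update_self]
  apply h.closed (s := fun i => (b i).toNat)
  intro n
  have h1 := hm _ _ (lb_zero h x n)
  rw [hb] at h1
  have h2 := h1.2
  rw [hlen, ← hb, ← List.replicate_succ] at h2
  exact h.loc h2 (fun i hi => (hsq (n + 1) i (Nat.lt_succ_of_le hi)).le) (ag_trn n x)
    (Ag.refl _ _)

theorem exists_perm (m : ℕ) : ∃ π : ℤ ≃ ℤ, ∀ a : ℤ, a ≤ π a ∧ (0 ≤ a → a + m ≤ π a) := by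
  have h1 : Function.Injective (fun a : ℤ => if a < 0 then a else a + m) := by
    intro a b hab
    simp only at hab
    split_ifs at hab <;> omega
  have h2 : Function.Injective (fun b : ℤ => if b < 0 then 2 * b else -2 * b - 1) := by
    intro a b hab
    simp only at hab
    split_ifs at hab <;> omega
  obtain ⟨f, hf, hf'⟩ := Function.Embedding.schroeder_bernstein_of_rel h1 h2
    (fun a b => a ≤ b ∧ (0 ≤ a → a + m ≤ b)) (by
      intro a
      split_ifs <;> omega) (by
      intro b
      split_ifs <;> omega)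
  exact ⟨Equiv.ofBijective f hf, hf'⟩

/-- levelwise action on nodes -/
def act (π : ℕ → ℤ → ℤ) : List ℤ → List ℤ
  | [] => []
  | a :: t => π t.length a :: act π t

theorem act_length (π : ℕ → ℤ → ℤ) (t : List ℤ) : (act π t).length = t.length := by
  induction t with
  | nil => rfl
  | cons a t ih => simp [act, ih]

theorem act_act (π ρ : ℕ → ℤ → ℤ) (h : ∀ n a, ρ n (π n a) = a) (t : List ℤ) :
    act ρ (act π t) = t := by
  induction t with
  | nil => rfl
  | cons a t ih => simp [act, ih, act_length, h]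

/-- the levelwise action as a permutation of nodes -/
def actE (π : ℕ → ℤ ≃ ℤ) : List ℤ ≃ List ℤ where
  toFun := act (fun n => π n)
  invFun := act (fun n => (π n).symm)
  left_inv := act_act _ _ (fun n a => (π n).symm_apply_apply a)
  right_inv := act_act _ _ (fun n a => (π n).apply_symm_apply a)

theorem isAut_act (π : ℕ → ℤ ≃ ℤ) : IsAut (Equiv.prodCongr (actE π) (Equiv.refl Lab)) := by
  rintro (i | j) a b
  · cases i
    · exact (actE π).injective.eq_iff
    · constructor
      · rintro ⟨c, hc⟩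
        refine ⟨(π a.1.length).symm c, (actE π).injective ?_⟩
        have h1 : actE π b.1 = c :: actE π a.1 := hc
        rw [h1]
        simp [actE, act]
      · rintro ⟨c, hc⟩
        refine ⟨π a.1.length c, ?_⟩
        change actE π b.1 = _ :: actE π a.1
        rw [hc]
        rfl
  · rfl

theorem mono_of_T (h : NF T P) {x y : Can} (hxy : T x y) :
    ∃ γ : Om ≃ Om, IsAut γ ∧ ∀ ω, Lb P x ω → Lb P y (γ ω) := by
  obtain ⟨s, hs⟩ := h.wit hxy
  choose π hπ using fun n => exists_perm (s n)
  refine ⟨_, isAut_act π, ?_⟩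
  have key : ∀ t : List ℤ, (∀ b ∈ t, 0 ≤ b) → (∀ b ∈ actE π t, 0 ≤ b) ∧
      ∀ i < t.length, sq t i + s i ≤ sq (actE π t) i := by
    intro t
    induction t with
    | nil => intro _; exact ⟨by simp [actE, act], by simp⟩
    | cons a t ih =>
      intro ht
      have ha : 0 ≤ a := ht a List.mem_cons_self
      obtain ⟨ih1, ih2⟩ := ih (fun b hb => ht b (List.mem_cons_of_mem _ hb))
      have e1 : actE π (a :: t) = π t.length a :: actE π t := rfl
      have e2 : (actE π t).length = t.length := act_length _ _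
      rw [e1]
      constructor
      · intro b hb
        rcases List.mem_cons.mp hb with rfl | hb
        · exact ha.trans (hπ _ _).1
        · exact ih1 b hb
      · intro i hi
        rw [sq, sq, e2]
        rw [List.length_cons] at hi
        rcases Nat.lt_succ_iff_lt_or_eq.mp hi with h1 | rfl
        · rw [Function.update_of_ne h1.ne, Function.update_of_ne h1.ne]
          exact ih2 i h1
        · rw [Function.update_self, Function.update_self]
          have := (hπ t.length a).2 ha
          omega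
  rintro ⟨_ | ⟨a, t⟩, j | u⟩ hω
  · trivial
  · trivial
  · exact le_trans hω (hπ _ _).1
  · obtain ⟨h1, h2⟩ := hω
    obtain ⟨h3, h4⟩ := key _ h1
    have e2 : (actE π t).length = t.length := act_length _ _
    refine ⟨h3, ?_⟩
    change P (actE π t).length (sq (actE π (a :: t))) (ind u) y
    rw [e2]
    exact h.loc (h.trans h2 (hs _)) (fun i hi => h4 i (Nat.lt_succ_of_le hi)) (Ag.refl _ _)
      (Ag.refl _ _)

theorem rigid (h : NF T P) {x y : Can} {γ : Om ≃ Om} (hγ : IsAut γ)
    (hm : ∀ ω, Lb P x ω ↔ Lb P y (γ ω)) : γ = Equiv.refl _ ∧ x = y := by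
  obtain ⟨k, hk1, hk2, hk3⟩ := hγ.struct
  have hid : ∀ t, k t = t := by
    intro t
    induction t with
    | nil => exact hk2
    | cons a t ih =>
      obtain ⟨c, hc⟩ := hk3 a t
      rw [ih] at hc
      have h1 : ∀ m : ℤ, m ≤ a ↔ m ≤ c := by
        intro m
        have h2 := hm (a :: t, Sum.inl m)
        rw [hk1] at h2
        simp only [hc] at h2
        exact h2
      have : c = a := le_antisymm ((h1 c).mpr le_rfl) ((h1 a).mp le_rfl)
      rw [hc, this]
  have hγ' : ∀ ω, γ ω = ω := fun ω => by rw [hk1, hid]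
  refine ⟨Equiv.ext hγ', ?_⟩
  funext i
  have h1 := (hm _).mp (lb_zero h x (i + 1))
  rw [hγ'] at h1
  have h2 := h1.2
  rw [← List.replicate_succ, sq_replicate, List.length_replicate] at h2
  exact ((ag_trn (i + 1) x).symm.trans ((h.zero rfl).mp h2)) i (Nat.lt_succ_self i)

theorem lb_measurable (h : NF T P) (ω : Om) : MeasurableSet {y : Can | Lb P y ω} := by
  rcases ω with ⟨_ | ⟨a, t⟩, j | u⟩
  · exact MeasurableSet.const True
  · exact MeasurableSet.const True
  · exact MeasurableSet.const (j ≤ a)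
  · exact (MeasurableSet.const (∀ b ∈ a :: t, 0 ≤ b)).inter (h.measurable _ _ _)

end

/-- The base theorem: an analytic quasi-order is given by monotone automorphisms between rigid
labellings of the base structure. -/
theorem exists_base (X : Type) [TopologicalSpace X] [PolishSpace X] [MeasurableSpace X]
    [BorelSpace X] (R : Set (X × X)) (hR : MeasureTheory.AnalyticSet R)
    (hrefl : ∀ x, (x, x) ∈ R) (htr : ∀ x y z, (x, y) ∈ R → (y, z) ∈ R → (x, z) ∈ R) :
    ∃ A : X → Om → Prop, (∀ ω, MeasurableSet {x | A x ω}) ∧ (∀ x j, A x ([], j)) ∧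
      (∀ x y, (x, y) ∈ R ↔ ∃ γ : Om ≃ Om, IsAut γ ∧ ∀ ω, A x ω → A y (γ ω)) ∧
      (∀ x y (γ : Om ≃ Om), IsAut γ → (∀ ω, A x ω ↔ A y (γ ω)) → γ = Equiv.refl _ ∧ x = y) := by
  rcases isEmpty_or_nonempty X with hX | hX
  · exact ⟨fun _ _ => True, fun _ => MeasurableSet.const True, fun _ _ => trivial,
      fun x => isEmptyElim x, fun x => isEmptyElim x⟩
  obtain ⟨e, T, P, he, hinj, hP, hT⟩ := exists_NF_polish X R hR hrefl htr
  refine ⟨fun x => Lb P (e x), fun ω => he (lb_measurable hP ω), fun x j => trivial, ?_, ?_⟩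
  · intro x y
    rw [hT]
    refine ⟨mono_of_T hP, ?_⟩
    rintro ⟨γ, hγ, hm⟩
    obtain ⟨k, hk1, hk2, hk3⟩ := hγ.struct
    refine T_of_mono hP hk2 hk3 (fun t j ht => ?_)
    have := hm _ ht
    rwa [hk1] at this
  · intro x y γ hγ hm
    obtain ⟨h1, h2⟩ := rigid hP hγ hm
    exact ⟨h1, hinj h2⟩

end Pool.Agent.H360Z.QO
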